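import Mathlib

/-!
# Digital functions: uniform decay of exponential sums over blocks
-/

namespace H31LI

open Finset

/-- unimodular functions multiplicative with respect to the digits in base `q` -/
structure Dig (q : ℕ) (F : ℕ → ℂ) : Prop where
  norm : ∀ n, ‖F n‖ = 1
  mul : ∀ t j v, v < q ^ t → F (q ^ t * j + v) = F (q ^ t * j) * F v

/-- the geometric mean value -/
noncomputable def phi (q : ℕ) (y : ℂ) : ℂ := (q : ℂ)⁻¹ * ∑ d ∈ range q, y ^ d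

theorem norm_phi_le {q : ℕ} (hq : 2 ≤ q) {y : ℂ} (hy : ‖y‖ = 1) : ‖phi q y‖ ≤ 1 := by
  have hq0 : (0 : ℝ) < q := by positivity
  have h1 : ‖∑ d ∈ range q, y ^ d‖ ≤ q := by
    refine (norm_sum_le _ _).trans ?_
    simp [hy]
  rw [phi, norm_mul, norm_inv, Complex.norm_natCast, inv_mul_le_iff₀ hq0]
  linarith

theorem norm_phi_lt {q : ℕ} (hq : 2 ≤ q) {y : ℂ} (hy : ‖y‖ = 1) (h1 : y ≠ 1) :
    ‖phi q y‖ < 1 := by
  have hq0 : (0 : ℝ) < q := by positivity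
  obtain ⟨m, rfl⟩ : ∃ m, q = 2 + m := ⟨q - 2, by omega⟩
  have hre : y.re < 1 := by
    have h2 := Complex.abs_re_le_norm y
    rw [hy] at h2
    rcases (abs_le.1 h2).2.lt_or_eq with h3 | h3
    · exact h3
    · exfalso
      apply h1
      have h4 : y.re * y.re + y.im * y.im = 1 := by
        rw [← Complex.normSq_apply, Complex.normSq_eq_norm_sq, hy]; norm_num
      rw [h3] at h4
      have h5 : y.im = 0 := by
        have : y.im * y.im = 0 := by linarith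
        exact mul_self_eq_zero.1 this
      exact Complex.ext (by simpa using h3) (by simpa using h5)
  have h2 : ‖1 + y‖ < 2 := by
    have h3 : ‖1 + y‖ ^ 2 < 2 ^ 2 := by
      rw [← Complex.normSq_eq_norm_sq, Complex.normSq_apply]
      have h4 : y.re * y.re + y.im * y.im = 1 := by
        rw [← Complex.normSq_apply, Complex.normSq_eq_norm_sq, hy]; norm_num
      simp only [Complex.add_re, Complex.one_re, Complex.add_im, Complex.one_im]
      nlinarith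
    exact lt_of_pow_lt_pow_left₀ 2 (by norm_num) h3
  have h3 : ‖∑ d ∈ range (2 + m), y ^ d‖ < ((2 + m : ℕ) : ℝ) := by
    rw [sum_range_add]
    have h4 : ∑ d ∈ range 2, y ^ d = 1 + y := by simp [sum_range_succ]
    rw [h4]
    have h5 : ‖∑ x ∈ range m, y ^ (2 + x)‖ ≤ m := by
      refine (norm_sum_le _ _).trans ?_
      simp [hy]
    push_cast
    calc ‖1 + y + ∑ x ∈ range m, y ^ (2 + x)‖ ≤ ‖1 + y‖ + ‖∑ x ∈ range m, y ^ (2 + x)‖ :=
          norm_add_le _ _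
      _ < 2 + m := by linarith
  rw [phi, norm_mul, norm_inv, Complex.norm_natCast, inv_mul_lt_iff₀ hq0]
  linarith

theorem exists_rho {q : ℕ} (hq : 2 ≤ q) {ω : ℂ} (hω : ‖ω‖ = 1) (hω1 : ω ≠ 1) :
    ∃ ρ : ℝ, 0 ≤ ρ ∧ ρ < 1 ∧ ∀ y : ℂ, ‖y‖ = 1 → ‖phi q y‖ * ‖phi q (ω * y ^ q)‖ ≤ ρ := by
  have hc : Continuous fun y : ℂ => ‖phi q y‖ * ‖phi q (ω * y ^ q)‖ := by
    unfold phi
    fun_prop
  obtain ⟨y₀, hy₀, hmax⟩ := (isCompact_sphere (0 : ℂ) 1).exists_isMaxOn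
    (NormedSpace.sphere_nonempty.2 zero_le_one) hc.continuousOn
  have hy₀' : ‖y₀‖ = 1 := by simpa using hy₀
  have hy₁ : ‖ω * y₀ ^ q‖ = 1 := by rw [norm_mul, norm_pow, hω, hy₀']; simp
  refine ⟨‖phi q y₀‖ * ‖phi q (ω * y₀ ^ q)‖, by positivity, ?_, fun y hy => ?_⟩
  · by_cases h : y₀ = 1
    · have h2 : ω * y₀ ^ q ≠ 1 := by rw [h]; simpa using hω1
      have h3 := norm_phi_lt hq hy₁ h2
      have h4 := norm_phi_le hq hy₀'
      have h5 := norm_nonneg (phi q (ω * y₀ ^ q))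
      nlinarith [norm_nonneg (phi q y₀)]
    · have h3 := norm_phi_lt hq hy₀' h
      have h4 := norm_phi_le hq hy₁
      nlinarith [norm_nonneg (phi q y₀), norm_nonneg (phi q (ω * y₀ ^ q))]
  · exact hmax (by simpa using hy)

theorem sum_range_mul' {M : Type*} [AddCommMonoid M] (f : ℕ → M) (B K : ℕ) :
    ∑ n ∈ range (B * K), f n = ∑ j ∈ range K, ∑ v ∈ range B, f (B * j + v) := by
  induction K with
  | zero => simp
  | succ K ih => rw [Nat.mul_succ, sum_range_add, ih, sum_range_succ]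

/-- uniform decay of the sums over blocks -/
theorem decay {q : ℕ} (hq : 2 ≤ q) {F : ℕ → ℂ} (hF : Dig q F) {ω : ℂ} (hω : ‖ω‖ = 1)
    (hω1 : ω ≠ 1) (hd : ∀ t d, d < q → F (q ^ t * d) = F (q ^ t) ^ d)
    (hs : ∀ t, F (q ^ (t + 1)) = ω * F (q ^ t) ^ q) (ε : ℝ) (hε : 0 < ε) :
    ∃ t : ℕ, ∀ z : ℂ, ‖z‖ = 1 → ‖∑ v ∈ range (q ^ t), F v * z ^ v‖ ≤ ε * q ^ t := by
  obtain ⟨ρ, hρ0, hρ1, hρ⟩ := exists_rho hq hω hω1
  have hstep : ∀ (t : ℕ) (z : ℂ), ∑ v ∈ range (q ^ (t + 1)), F v * z ^ v =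
      (∑ d ∈ range q, (F (q ^ t) * z ^ (q ^ t)) ^ d) * ∑ v ∈ range (q ^ t), F v * z ^ v := by
    intro t z
    rw [pow_succ, sum_range_mul', sum_mul]
    refine sum_congr rfl fun d hd' => ?_
    rw [mem_range] at hd'
    rw [mul_sum]
    refine sum_congr rfl fun v hv => ?_
    rw [mem_range] at hv
    rw [hF.mul t d v hv, hd t d hd', pow_add, pow_mul, mul_pow]
    ring
  have hphi : ∀ (t : ℕ) (z : ℂ), ‖z‖ = 1 → ‖∑ v ∈ range (q ^ (t + 1)), F v * z ^ v‖ =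
      q * ‖phi q (F (q ^ t) * z ^ (q ^ t))‖ * ‖∑ v ∈ range (q ^ t), F v * z ^ v‖ := by
    intro t z _
    have hq0 : (q : ℝ) ≠ 0 := by positivity
    rw [hstep, norm_mul, phi, norm_mul, norm_inv, Complex.norm_natCast, ← mul_assoc,
      mul_inv_cancel₀ hq0, one_mul]
  have hmain : ∀ (t : ℕ) (z : ℂ), ‖z‖ = 1 →
      ‖∑ v ∈ range (q ^ (2 * t)), F v * z ^ v‖ ≤ ρ ^ t * (q : ℝ) ^ (2 * t) := by
    intro t z hz
    induction t with
    | zero =>
      simp [hF.norm 0]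
    | succ t ih =>
      rw [show 2 * (t + 1) = (2 * t + 1) + 1 by ring, hphi _ z hz, hphi _ z hz]
      set y := F (q ^ (2 * t)) * z ^ (q ^ (2 * t)) with hy
      have hy1 : ‖y‖ = 1 := by rw [hy, norm_mul, norm_pow, hz, hF.norm]; simp
      have hy2 : F (q ^ (2 * t + 1)) * z ^ (q ^ (2 * t + 1)) = ω * y ^ q := by
        rw [hs, hy, mul_pow, pow_succ q, pow_mul]; ring
      rw [hy2]
      have h1 := hρ y hy1
      have h2 := norm_nonneg (∑ v ∈ range (q ^ (2 * t)), F v * z ^ v)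
      calc (q : ℝ) * ‖phi q (ω * y ^ q)‖ * (q * ‖phi q y‖ *
            ‖∑ v ∈ range (q ^ (2 * t)), F v * z ^ v‖)
          = (q : ℝ) ^ 2 * (‖phi q y‖ * ‖phi q (ω * y ^ q)‖) *
            ‖∑ v ∈ range (q ^ (2 * t)), F v * z ^ v‖ := by ring
        _ ≤ (q : ℝ) ^ 2 * ρ * (ρ ^ t * (q : ℝ) ^ (2 * t)) := by gcongr
        _ = ρ ^ (t + 1) * (q : ℝ) ^ (2 * t + 1 + 1) := by ring
  obtain ⟨t, ht⟩ := exists_pow_lt_of_lt_one hε hρ1
  refine ⟨2 * t, fun z hz => (hmain t z hz).trans ?_⟩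
  push_cast
  gcongr

end H31LI
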