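import Pool.Agent.H31LI.Means

/-!
# The least indices of sums of distinct factorials which are `k`-th powers have density zero
-/

namespace H31LI

open Finset Filter Topology

/-- if `p ∣ a + 1` then the `p`-adic valuation of a sum of distinct factorials with least index `a` is that
of `a!` -/
theorem val_sum {p : ℕ} [hp : Fact p.Prime] {S : Finset ℕ} {a : ℕ} (ha : a ∈ S)
    (hmin : ∀ i ∈ S, a ≤ i) (hpa : p ∣ a + 1) :
    padicValNat p (∑ i ∈ S, i.factorial) = padicValNat p a.factorial := by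
  have h1 : p * a.factorial ∣ ∑ i ∈ S.erase a, i.factorial := by
    refine dvd_sum fun i hi => ?_
    have h2 : a + 1 ≤ i := by
      have h3 := hmin i (mem_of_mem_erase hi)
      have h4 := ne_of_mem_erase hi
      omega
    have h5 : (a + 1).factorial ∣ i.factorial := Nat.factorial_dvd_factorial h2
    rw [Nat.factorial_succ] at h5
    exact (Nat.mul_dvd_mul_right hpa _).trans h5
  obtain ⟨y, hy⟩ := h1
  have h2 : ∑ i ∈ S, i.factorial = a.factorial * (1 + p * y) := by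
    rw [← add_sum_erase S _ ha, hy]
    ring
  have h3 : ¬ p ∣ 1 + p * y := by
    intro h4
    have h5 : p ∣ 1 := (Nat.dvd_add_left (Dvd.intro y rfl)).1 h4
    exact hp.out.one_lt.ne' (Nat.dvd_one.1 h5)
  rw [h2, padicValNat.mul (Nat.factorial_ne_zero a) (by omega), padicValNat.eq_zero_of_not_dvd h3,
    add_zero]

/-- the least indices of the sums which are `k`-th powers -/
def Poss (k : ℕ) : Set ℕ :=
  {a | ∃ S : Finset ℕ, a ∈ S ∧ (∀ i ∈ S, a ≤ i) ∧ ∃ m : ℕ, ∑ i ∈ S, i.factorial = m ^ k}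

theorem Xr_eq_zero {k a p : ℕ} (hk : 2 ≤ k) (h : a ∈ Poss k) (hp : p.Prime) : Xr k p a = 0 := by
  rw [Xr, if_neg]
  rintro ⟨hpa, hnd⟩
  apply hnd
  have : Fact p.Prime := ⟨hp⟩
  obtain ⟨S, ha, hmin, m, hm⟩ := h
  have h1 := val_sum ha hmin hpa
  rw [hm] at h1
  have hm0 : m ≠ 0 := by
    rintro rfl
    rw [zero_pow (by omega)] at hm
    have h2 : a.factorial ≤ ∑ i ∈ S, i.factorial :=
      single_le_sum (f := fun i : ℕ => i.factorial) (fun _ _ => Nat.zero_le _) ha
    have h3 := Nat.factorial_pos a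
    omega
  rw [padicValNat.pow] at h1
  exact ⟨_, h1.symm⟩

theorem second_moment {k : ℕ} (hk : 2 ≤ k) {P : Finset ℕ} (hP : ∀ p ∈ P, p.Prime) :
    Tendsto (fun N : ℕ => (∑ n ∈ range N, (∑ p ∈ P, Xr k p n - ∑ p ∈ P, cp k p) ^ 2) / (N : ℝ))
      atTop (𝓝 (∑ p ∈ P, (cp k p - cp k p ^ 2))) := by
  classical
  set μ := ∑ p ∈ P, cp k p with hμ
  have h1 : Tendsto (fun N : ℕ => ∑ p ∈ P, ∑ q ∈ P, (∑ n ∈ range N, Xr k p n * Xr k q n) / (N : ℝ))
      atTop (𝓝 (∑ p ∈ P, ∑ q ∈ P, if p = q then cp k p else cp k p * cp k q)) := by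
    refine tendsto_finsetSum _ fun p hp => tendsto_finsetSum _ fun q hq => ?_
    by_cases hpq : p = q
    · subst hpq
      simp only [if_true, Xr_sq]
      exact mean_Xr hk (hP p hp)
    · simp only [hpq, if_false]
      exact mean_Xr_mul hk (hP p hp) (hP q hq) hpq
  have h2 : Tendsto (fun N : ℕ => ∑ p ∈ P, (∑ n ∈ range N, Xr k p n) / (N : ℝ)) atTop (𝓝 μ) :=
    tendsto_finsetSum _ fun p hp => mean_Xr hk (hP p hp)
  have h3 := (h1.sub (h2.const_mul (2 * μ))).add_const (μ ^ 2)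
  have h4 : (∑ p ∈ P, ∑ q ∈ P, if p = q then cp k p else cp k p * cp k q) - 2 * μ * μ + μ ^ 2 =
      ∑ p ∈ P, (cp k p - cp k p ^ 2) := by
    have h5 : ∀ p ∈ P, (∑ q ∈ P, if p = q then cp k p else cp k p * cp k q) =
        cp k p * μ + (cp k p - cp k p ^ 2) := by
      intro p hp
      have h6 : ∀ q ∈ P, (if p = q then cp k p else cp k p * cp k q) =
          cp k p * cp k q + if p = q then cp k p - cp k p ^ 2 else 0 := by
        intro q _
        split_ifs with h7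
        · rw [← h7]; ring
        · ring
      rw [sum_congr rfl h6, sum_add_distrib, ← mul_sum, sum_ite_eq, if_pos hp]
    rw [sum_congr rfl h5, sum_add_distrib, ← sum_mul]
    ring
  rw [h4] at h3
  refine h3.congr' ?_
  filter_upwards [eventually_gt_atTop 0] with N hN
  have hN' : (N : ℝ) ≠ 0 := by exact_mod_cast hN.ne'
  have h5 : ∑ p ∈ P, ∑ q ∈ P, (∑ n ∈ range N, Xr k p n * Xr k q n) / (N : ℝ) =
      (∑ n ∈ range N, (∑ p ∈ P, Xr k p n) ^ 2) / (N : ℝ) := by
    simp_rw [← sum_div, sq, sum_mul_sum]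
    congr 1
    calc ∑ p ∈ P, ∑ q ∈ P, ∑ n ∈ range N, Xr k p n * Xr k q n
        = ∑ p ∈ P, ∑ n ∈ range N, ∑ q ∈ P, Xr k p n * Xr k q n :=
          sum_congr rfl fun p _ => sum_comm
      _ = ∑ n ∈ range N, ∑ p ∈ P, ∑ q ∈ P, Xr k p n * Xr k q n := sum_comm
  have h6 : ∑ p ∈ P, (∑ n ∈ range N, Xr k p n) / (N : ℝ) =
      (∑ n ∈ range N, ∑ p ∈ P, Xr k p n) / (N : ℝ) := by
    rw [← sum_div, sum_comm]
  rw [h5, h6]
  have h7 : ∑ n ∈ range N, (∑ p ∈ P, Xr k p n - μ) ^ 2 =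
      ∑ n ∈ range N, (∑ p ∈ P, Xr k p n) ^ 2 - 2 * μ * ∑ n ∈ range N, ∑ p ∈ P, Xr k p n +
        N * μ ^ 2 := by
    rw [mul_sum, ← sum_sub_distrib]
    have h8 : (N : ℝ) * μ ^ 2 = ∑ n ∈ range N, μ ^ 2 := by simp
    rw [h8, ← sum_add_distrib]
    exact sum_congr rfl fun n _ => by ring
  rw [h7]
  field_simp

/-- the reciprocals of the primes diverge -/
theorem exists_P {k : ℕ} (hk : 2 ≤ k) (R : ℝ) :
    ∃ P : Finset ℕ, (∀ p ∈ P, p.Prime) ∧ R < ∑ p ∈ P, cp k p := by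
  classical
  by_contra hcon
  push Not at hcon
  apply not_summable_one_div_on_primes
  refine summable_of_sum_le (c := 2 * R) ?_ ?_
  · intro n
    exact Set.indicator_nonneg (fun _ _ => by positivity) n
  · intro u
    have h1 := hcon (u.filter Nat.Prime) (fun p hp => (mem_filter.1 hp).2)
    have h2 : ∑ x ∈ u, Set.indicator {p : ℕ | p.Prime} (fun n : ℕ => (1 : ℝ) / n) x =
        ∑ p ∈ u.filter Nat.Prime, (1 : ℝ) / p := by
      rw [sum_filter]
      refine sum_congr rfl fun x _ => ?_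
      rw [Set.indicator_apply]
      rfl
    rw [h2]
    have h3 : ∑ p ∈ u.filter Nat.Prime, (1 : ℝ) / p ≤ 2 * ∑ p ∈ u.filter Nat.Prime, cp k p := by
      rw [mul_sum]
      refine sum_le_sum fun p _ => ?_
      rw [cp]
      have h4 : (k : ℝ)⁻¹ ≤ 1 / 2 := by
        rw [← one_div]
        exact one_div_le_one_div_of_le (by norm_num) (by exact_mod_cast hk)
      have h5 : 0 ≤ (p : ℝ)⁻¹ := by positivity
      rw [one_div]
      nlinarith
    linarith

theorem main (k : ℕ) (hk : 2 ≤ k) :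
    Tendsto (fun N : ℕ => (Nat.card {a : ℕ | a < N ∧ a ∈ Poss k} : ℝ) / N) atTop (𝓝 0) := by
  classical
  rw [Metric.tendsto_atTop]
  intro ε hε
  obtain ⟨P, hP, hR⟩ := exists_P hk (2 / ε)
  set μ := ∑ p ∈ P, cp k p with hμ
  have hμ0 : 0 < μ := lt_trans (by positivity) hR
  have h1 := second_moment hk hP
  have h2 : ∑ p ∈ P, (cp k p - cp k p ^ 2) < 2 * μ := by
    have : ∑ p ∈ P, (cp k p - cp k p ^ 2) ≤ μ :=
      sum_le_sum fun p _ => by nlinarith [sq_nonneg (cp k p)]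
    linarith
  have h3 := (h1.eventually (gt_mem_nhds h2)).and (eventually_gt_atTop 0)
  obtain ⟨N₀, hN₀⟩ := eventually_atTop.1 h3
  refine ⟨N₀, fun N hN => ?_⟩
  obtain ⟨h4, h5⟩ := hN₀ N hN
  have hN' : (0 : ℝ) < N := by exact_mod_cast h5
  have hcard : (Nat.card {a : ℕ | a < N ∧ a ∈ Poss k} : ℝ) =
      (((range N).filter fun a => a ∈ Poss k).card : ℝ) := by
    have hset : {a : ℕ | a < N ∧ a ∈ Poss k} =
        (((range N).filter fun a => a ∈ Poss k : Finset ℕ) : Set ℕ) := by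
      ext a
      simp
    rw [Nat.card_coe_set_eq, hset, Set.ncard_coe_finset]
  have h6 : (((range N).filter fun a => a ∈ Poss k).card : ℝ) * μ ^ 2 ≤
      ∑ n ∈ range N, (∑ p ∈ P, Xr k p n - μ) ^ 2 := by
    rw [← nsmul_eq_mul, ← sum_const, sum_filter]
    refine sum_le_sum fun n _ => ?_
    split_ifs with h7
    · have h8 : ∑ p ∈ P, Xr k p n = 0 := sum_eq_zero fun p hp => Xr_eq_zero hk h7 (hP p hp)
      rw [h8]
      simp
    · positivity
  rw [dist_zero_right, Real.norm_of_nonneg (by positivity), hcard]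
  rw [div_lt_iff₀ hN'] at h4 ⊢
  have h9 : (((range N).filter fun a => a ∈ Poss k).card : ℝ) * μ ^ 2 < 2 * μ * N :=
    lt_of_le_of_lt h6 h4
  have h10 : (((range N).filter fun a => a ∈ Poss k).card : ℝ) * μ < 2 * N := by
    by_contra hcon
    push Not at hcon
    have := mul_le_mul_of_nonneg_right hcon hμ0.le
    nlinarith
  have h11 : 2 < ε * μ := by
    rw [div_lt_iff₀ hε] at hR
    linarith
  by_contra hcon
  push Not at hcon
  have h12 := mul_le_mul_of_nonneg_right hcon hμ0.le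
  nlinarith

end H31LI
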