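import Pool.Agent.H31LI.Val

/-!
# Mean values of the events `p ∣ n + 1`, `k ∤ v_p(n!)`
-/

namespace H31LI

open Finset Filter Topology

theorem MeanTo.congr {f g : ℕ → ℂ} {c : ℂ} (h : MeanTo f c) (hfg : ∀ n, f n = g n) : MeanTo g c := by
  have : f = g := funext hfg
  rwa [← this]

theorem MeanTo.add {f g : ℕ → ℂ} {c d : ℂ} (hf : MeanTo f c) (hg : MeanTo g d) :
    MeanTo (fun n => f n + g n) (c + d) := by
  have h := Filter.Tendsto.add hf hg
  refine h.congr fun N => ?_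
  rw [sum_add_distrib, add_div]

theorem MeanTo.const_mul {f : ℕ → ℂ} {c : ℂ} (a : ℂ) (hf : MeanTo f c) :
    MeanTo (fun n => a * f n) (a * c) := by
  have h := Filter.Tendsto.const_mul a hf
  refine h.congr fun N => ?_
  rw [← mul_sum, mul_div_assoc]

theorem meanTo_zero : MeanTo (fun _ => 0) 0 := by
  refine tendsto_const_nhds.congr fun N => ?_
  simp

theorem MeanTo.sum {ι : Type*} (s : Finset ι) {f : ι → ℕ → ℂ} {c : ι → ℂ}
    (h : ∀ i ∈ s, MeanTo (f i) (c i)) : MeanTo (fun n => ∑ i ∈ s, f i n) (∑ i ∈ s, c i) := by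
  classical
  induction s using Finset.induction_on with
  | empty => simpa using meanTo_zero
  | insert a s ha ih =>
    have h1 := (h a (mem_insert_self a s)).add (ih fun i hi => h i (mem_insert_of_mem hi))
    rw [sum_insert ha]
    refine h1.congr fun n => ?_
    rw [sum_insert ha]

theorem Null.add {f g : ℕ → ℂ} (hf : Null f) (hg : Null g) : Null (fun n => f n + g n) := by
  intro z hz
  have h := (hf z hz).add (hg z hz)
  rw [add_zero] at h
  exact h.congr fun n => by ring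

theorem Null.const_mul {f : ℕ → ℂ} (a : ℂ) (hf : Null f) : Null (fun n => a * f n) := by
  intro z hz
  have h := (hf z hz).const_mul a
  rw [mul_zero] at h
  exact h.congr fun n => by ring

theorem Null.sum {ι : Type*} (s : Finset ι) {f : ι → ℕ → ℂ}
    (h : ∀ i ∈ s, Null (f i)) : Null (fun n => ∑ i ∈ s, f i n) := by
  intro z hz
  have h1 := MeanTo.sum s (f := fun i n => f i n * z ^ n) (c := fun _ => 0)
    (fun i hi => h i hi z hz)
  rw [sum_const_zero] at h1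
  exact h1.congr fun n => by rw [sum_mul]

theorem Null.mean {f : ℕ → ℂ} (hf : Null f) : MeanTo f 0 := by
  have h := hf 1 (by simp)
  exact h.congr fun n => by simp

/-- the root of unity `exp (2 π i / m)` -/
noncomputable def rt (m : ℕ) : ℂ := Complex.exp (2 * Real.pi * Complex.I / m)

theorem rt_prim {m : ℕ} (hm : m ≠ 0) : IsPrimitiveRoot (rt m) m := Complex.isPrimitiveRoot_exp m hm

theorem norm_rt {m : ℕ} (hm : m ≠ 0) : ‖rt m‖ = 1 := (rt_prim hm).norm'_eq_one hm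

theorem ind_eq {m : ℕ} (hm : m ≠ 0) (x : ℕ) :
    (if m ∣ x then (1 : ℂ) else 0) = (m : ℂ)⁻¹ * ∑ b ∈ range m, (rt m ^ b) ^ x := by
  have hm' : (m : ℂ) ≠ 0 := by exact_mod_cast hm
  have h1 : ∑ b ∈ range m, (rt m ^ b) ^ x = ∑ b ∈ range m, (rt m ^ x) ^ b :=
    sum_congr rfl fun b _ => by rw [← pow_mul, ← pow_mul, mul_comm]
  rw [h1]
  by_cases h : m ∣ x
  · have h2 : rt m ^ x = 1 := ((rt_prim hm).pow_eq_one_iff_dvd x).2 h
    rw [if_pos h, h2]
    simp [hm']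
  · have h2 : rt m ^ x ≠ 1 := fun hc => h (((rt_prim hm).pow_eq_one_iff_dvd x).1 hc)
    have h3 : (rt m ^ x) ^ m = 1 := by
      rw [← pow_mul, mul_comm, pow_mul, (rt_prim hm).pow_eq_one, one_pow]
    rw [if_neg h, geom_sum_eq h2, h3, sub_self, zero_div, mul_zero]

/-- indicator of `m ∣ n + 1` -/
noncomputable def ei (m n : ℕ) : ℂ := if m ∣ n + 1 then 1 else 0

theorem Null.mul_ind {f : ℕ → ℂ} (hf : Null f) {m : ℕ} (hm : m ≠ 0) :
    Null (fun n => ei m n * f n) := by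
  intro z hz
  have h : ∀ b ∈ range m, MeanTo (fun n => ((m : ℂ)⁻¹ * rt m ^ b) * (f n * (rt m ^ b * z) ^ n)) 0 := by
    intro b _
    have h1 := (hf (rt m ^ b * z) (by rw [norm_mul, norm_pow, norm_rt hm, hz]; simp)).const_mul
      ((m : ℂ)⁻¹ * rt m ^ b)
    rwa [mul_zero] at h1
  have h2 := MeanTo.sum (range m) (c := fun _ => 0) h
  rw [sum_const_zero] at h2
  refine h2.congr fun n => ?_
  simp only [ei]
  rw [ind_eq hm, mul_sum, sum_mul, sum_mul]
  refine sum_congr rfl fun b _ => ?_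
  rw [pow_succ, mul_pow]
  ring

theorem mean_ei {m : ℕ} (hm : m ≠ 0) : MeanTo (ei m) (m : ℂ)⁻¹ := by
  have h1 : ∀ N : ℕ, ∑ n ∈ range N, ei m n = ((N / m : ℕ) : ℂ) := by
    intro N
    simp only [ei]
    rw [← sum_filter, sum_const, Nat.card_multiples]
    simp
  have hm0 : (0 : ℝ) < m := by exact_mod_cast Nat.pos_of_ne_zero hm
  have h2 : Tendsto (fun N : ℕ => ((N / m : ℕ) : ℝ) / (N : ℝ)) atTop (𝓝 (m : ℝ)⁻¹) := by
    have h3 : Tendsto (fun N : ℕ => (m : ℝ)⁻¹ - 1 / (N : ℝ)) atTop (𝓝 (m : ℝ)⁻¹) := by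
      have := tendsto_const_nhds (x := (m : ℝ)⁻¹) (f := (atTop : Filter ℕ)) |>.sub
        tendsto_one_div_atTop_nhds_zero_nat
      simpa using this
    refine tendsto_of_tendsto_of_tendsto_of_le_of_le' h3 tendsto_const_nhds ?_ ?_
    · filter_upwards [eventually_gt_atTop 0] with N hN
      have hN' : (0 : ℝ) < N := by exact_mod_cast hN
      have h4 : (N : ℝ) < ((N / m : ℕ) : ℝ) * m + m := by
        have h5 := Nat.div_add_mod N m
        have h6 := Nat.mod_lt N (Nat.pos_of_ne_zero hm)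
        have h7 : N < N / m * m + m := by
          rw [mul_comm]
          omega
        exact_mod_cast h7
      rw [le_div_iff₀ hN', sub_mul, one_div, inv_mul_cancel₀ hN'.ne']
      have h8 : (m : ℝ)⁻¹ * N ≤ ((N / m : ℕ) : ℝ) + 1 := by
        rw [inv_mul_le_iff₀ hm0]
        linarith
      linarith
    · filter_upwards [eventually_gt_atTop 0] with N hN
      have hN' : (0 : ℝ) < N := by exact_mod_cast hN
      rw [div_le_iff₀ hN', inv_mul_eq_div]
      exact Nat.cast_div_le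
  have h5 := (Complex.continuous_ofReal.tendsto _).comp h2
  rw [MeanTo]
  have h6 : ((m : ℝ)⁻¹ : ℝ) = ((m : ℂ)⁻¹ : ℂ) := by push_cast; rfl
  rw [h6] at h5
  refine h5.congr fun N => ?_
  rw [h1]
  simp

variable {k : ℕ}

/-- fluctuating part of `1 - 1[k ∣ v_p(n!)]` -/
noncomputable def Dp (k p n : ℕ) : ℂ := ∑ h ∈ Ico 1 k, (-(k : ℂ)⁻¹) * Fv p (rt k ^ h) n

theorem one_sub_ind (hk : 2 ≤ k) (p n : ℕ) :
    (if k ∣ padicValNat p n.factorial then (0 : ℂ) else 1) = (1 - (k : ℂ)⁻¹) + Dp k p n := by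
  have h1 : (if k ∣ padicValNat p n.factorial then (0 : ℂ) else 1) =
      1 - if k ∣ padicValNat p n.factorial then (1 : ℂ) else 0 := by
    split_ifs <;> simp
  rw [h1, ind_eq (by omega : k ≠ 0), Dp, range_eq_Ico, sum_eq_sum_Ico_succ_bot (by omega), mul_add,
    mul_sum]
  simp only [pow_zero, one_pow, mul_one, zero_add, Fv]
  rw [← sub_sub, sub_eq_add_neg (1 - (k : ℂ)⁻¹), ← sum_neg_distrib]
  congr 1
  exact sum_congr rfl fun h _ => by ring

theorem rt_pow_ne {h : ℕ} (h1 : h ∈ Ico 1 k) : rt k ^ h ≠ 1 := by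
  rw [mem_Ico] at h1
  exact (rt_prim (by omega)).pow_ne_one_of_pos_of_lt (by omega) h1.2

theorem norm_rt_pow {h : ℕ} (h1 : h ∈ Ico 1 k) : ‖rt k ^ h‖ = 1 := by
  rw [mem_Ico] at h1
  rw [norm_pow, norm_rt (by omega), one_pow]

theorem null_Dp {p : ℕ} (hp : p.Prime) : Null (Dp k p) :=
  Null.sum _ fun _ hh => (null_Fv hp (norm_rt_pow hh) (rt_pow_ne hh)).const_mul _

theorem null_Dp_mul {p q : ℕ} (hp : p.Prime) (hq : q.Prime) (hpq : p ≠ q) :
    Null (fun n => Dp k p n * Dp k q n) := by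
  have h : Null (fun n => ∑ h ∈ Ico 1 k, ∑ h' ∈ Ico 1 k, ((k : ℂ)⁻¹ * (k : ℂ)⁻¹) *
      (Fv p (rt k ^ h) n * Fv q (rt k ^ h') n)) :=
    Null.sum _ fun h hh => Null.sum _ fun h' hh' =>
      (null_Fv_mul hq hp hpq.symm (norm_rt_pow hh) (rt_pow_ne hh) (norm_rt_pow hh')).const_mul _
  intro z hz
  refine (h z hz).congr fun n => ?_
  simp only [Dp]
  rw [sum_mul_sum]
  congr 1
  exact sum_congr rfl fun h _ => sum_congr rfl fun h' _ => by ring

/-- the event -/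
noncomputable def Xr (k p n : ℕ) : ℝ := if p ∣ n + 1 ∧ ¬ k ∣ padicValNat p n.factorial then 1 else 0

theorem Xr_eq (hk : 2 ≤ k) (p n : ℕ) :
    ((Xr k p n : ℝ) : ℂ) = ei p n * ((1 - (k : ℂ)⁻¹) + Dp k p n) := by
  rw [← one_sub_ind hk, Xr, ei]
  by_cases h1 : p ∣ n + 1 <;> by_cases h2 : k ∣ padicValNat p n.factorial <;> simp [h1, h2]

theorem real_mean {x : ℕ → ℝ} {c : ℝ} (h : MeanTo (fun n => (x n : ℂ)) (c : ℂ)) :
    Tendsto (fun N : ℕ => (∑ n ∈ range N, x n) / (N : ℝ)) atTop (𝓝 c) := by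
  have h1 := (Complex.continuous_re.tendsto _).comp h
  rw [Complex.ofReal_re] at h1
  refine h1.congr fun N => ?_
  have : (∑ n ∈ range N, (x n : ℂ)) / (N : ℂ) = (((∑ n ∈ range N, x n) / (N : ℝ) : ℝ) : ℂ) := by
    push_cast
    rfl
  simp only [Function.comp_apply]
  rw [this, Complex.ofReal_re]

/-- the mean value of the event -/
noncomputable def cp (k p : ℕ) : ℝ := (1 - (k : ℝ)⁻¹) * (p : ℝ)⁻¹

theorem mean_Xr (hk : 2 ≤ k) {p : ℕ} (hp : p.Prime) :
    Tendsto (fun N : ℕ => (∑ n ∈ range N, Xr k p n) / (N : ℝ)) atTop (𝓝 (cp k p)) := by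
  apply real_mean
  have h1 := ((mean_ei hp.ne_zero).const_mul (1 - (k : ℂ)⁻¹)).add
    ((null_Dp (k := k) hp).mul_ind hp.ne_zero).mean
  rw [add_zero] at h1
  have h2 : ((cp k p : ℝ) : ℂ) = (1 - (k : ℂ)⁻¹) * (p : ℂ)⁻¹ := by
    rw [cp]
    push_cast
    rfl
  rw [h2]
  refine h1.congr fun n => ?_
  rw [Xr_eq hk]
  ring

theorem ei_mul {p q : ℕ} (hpq : Nat.Coprime p q) (n : ℕ) : ei p n * ei q n = ei (p * q) n := by
  rw [ei, ei, ei]
  by_cases h1 : p ∣ n + 1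
  · by_cases h2 : q ∣ n + 1
    · have h3 : p * q ∣ n + 1 := hpq.mul_dvd_of_dvd_of_dvd h1 h2
      simp [h1, h2, h3]
    · have h3 : ¬ p * q ∣ n + 1 := fun h => h2 ((Dvd.intro_left _ rfl).trans h)
      simp [h2, h3]
  · have h3 : ¬ p * q ∣ n + 1 := fun h => h1 ((Dvd.intro _ rfl).trans h)
    simp [h1, h3]

theorem mean_Xr_mul (hk : 2 ≤ k) {p q : ℕ} (hp : p.Prime) (hq : q.Prime) (hpq : p ≠ q) :
    Tendsto (fun N : ℕ => (∑ n ∈ range N, Xr k p n * Xr k q n) / (N : ℝ)) atTop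
      (𝓝 (cp k p * cp k q)) := by
  have hco : Nat.Coprime p q := (Nat.coprime_primes hp hq).2 hpq
  apply real_mean
  have hpq0 : p * q ≠ 0 := Nat.mul_ne_zero hp.ne_zero hq.ne_zero
  have h1 := (mean_ei hpq0).const_mul ((1 - (k : ℂ)⁻¹) * (1 - (k : ℂ)⁻¹))
  have h2 : Null (fun n => (1 - (k : ℂ)⁻¹) * Dp k p n + (1 - (k : ℂ)⁻¹) * Dp k q n +
      Dp k p n * Dp k q n) :=
    (((null_Dp hp).const_mul _).add ((null_Dp hq).const_mul _)).add (null_Dp_mul hp hq hpq)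
  have h3 := h1.add (h2.mul_ind hpq0).mean
  rw [add_zero] at h3
  have h4 : ((cp k p * cp k q : ℝ) : ℂ) = (1 - (k : ℂ)⁻¹) * (1 - (k : ℂ)⁻¹) * ((p * q : ℕ) : ℂ)⁻¹ := by
    rw [cp, cp]
    push_cast
    rw [mul_inv]
    ring
  rw [h4]
  refine h3.congr fun n => ?_
  push_cast
  rw [Xr_eq hk, Xr_eq hk, ← ei_mul hco]
  ring

theorem Xr_sq (p n : ℕ) : Xr k p n * Xr k p n = Xr k p n := by
  rw [Xr]
  split_ifs <;> simp

end H31LI
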