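import Mathlib

/-!
# A finite convolution inequality
-/

namespace H31LI

open Finset

section

variable {A : ℕ} [NeZero A]

theorem norm_char (x : ZMod A) : ‖ZMod.stdAddChar x‖ = 1 := by
  exact AddChar.norm_apply _ _

/-- Parseval on `ZMod A`, synthesis form -/
theorem parseval (w : ZMod A → ℂ) :
    ∑ c : ZMod A, ‖∑ b : ZMod A, w b * ZMod.stdAddChar (b * c)‖ ^ 2 = A * ∑ b : ZMod A, ‖w b‖ ^ 2 := by
  have key : ∑ c : ZMod A, (∑ b : ZMod A, w b * ZMod.stdAddChar (b * c)) *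
      (starRingEnd ℂ) (∑ b : ZMod A, w b * ZMod.stdAddChar (b * c)) =
      (A : ℂ) * ∑ b : ZMod A, w b * (starRingEnd ℂ) (w b) := by
    have h1 : ∀ c : ZMod A, (∑ b : ZMod A, w b * ZMod.stdAddChar (b * c)) *
      (starRingEnd ℂ) (∑ b : ZMod A, w b * ZMod.stdAddChar (b * c)) =
      ∑ b : ZMod A, ∑ b' : ZMod A, w b * (starRingEnd ℂ) (w b') *
        ZMod.stdAddChar (c * (b - b')) := by
      intro c
      rw [map_sum, sum_mul_sum]
      refine sum_congr rfl fun b _ => sum_congr rfl fun b' _ => ?_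
      rw [RingHom.map_mul, show c * (b - b') = b * c + -(b' * c) by ring, AddChar.map_add_eq_mul,
        AddChar.map_neg_eq_conj]
      ring
    simp_rw [h1]
    rw [sum_comm, mul_sum]
    refine sum_congr rfl fun b _ => ?_
    rw [sum_comm]
    rw [sum_eq_single b]
    · rw [← mul_sum, AddChar.sum_mulShift _ (ZMod.isPrimitive_stdAddChar A)]
      simp
      ring
    · intro b' _ hb'
      rw [← mul_sum, AddChar.sum_mulShift _ (ZMod.isPrimitive_stdAddChar A), if_neg, Nat.cast_zero,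
        mul_zero]
      rw [sub_eq_zero]
      exact fun h => hb' h.symm
    · simp
  simp_rw [Complex.mul_conj, Complex.normSq_eq_norm_sq] at key
  exact_mod_cast key

/-- multiplier inequality -/
theorem multiplier (g : ZMod A → ℂ) {B : ℕ} (a : ℕ → ℂ) {M : ℝ} (hM : 0 ≤ M)
    (ha : ∀ z : ℂ, ‖z‖ = 1 → ‖∑ v ∈ range B, a v * z ^ v‖ ≤ M) :
    ∑ c : ZMod A, ‖∑ v ∈ range B, a v * g (c + (v : ZMod A))‖ ^ 2 ≤ M ^ 2 * ∑ c : ZMod A, ‖g c‖ ^ 2 := by
  have hA : (A : ℂ) ≠ 0 := by exact_mod_cast NeZero.ne A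
  have hA' : (0 : ℝ) < A := by exact_mod_cast Nat.pos_of_ne_zero (NeZero.ne A)
  -- the Fourier transform
  set gh : ZMod A → ℂ := fun b => ∑ c : ZMod A, g c * ZMod.stdAddChar (-(b * c)) with hgh
  have hinv : ∀ c : ZMod A, ∑ b : ZMod A, gh b * ZMod.stdAddChar (b * c) = A * g c := by
    intro c
    simp_rw [hgh, sum_mul]
    rw [sum_comm, sum_eq_single c]
    · have : ∀ b : ZMod A, g c * ZMod.stdAddChar (-(b * c)) * ZMod.stdAddChar (b * c) = g c := by
        intro b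
        rw [mul_assoc, ← AddChar.map_add_eq_mul, neg_add_cancel, AddChar.map_zero_eq_one, mul_one]
      simp_rw [this]
      simp
    · intro c' _ hc'
      have : ∀ b : ZMod A, g c' * ZMod.stdAddChar (-(b * c')) * ZMod.stdAddChar (b * c) =
          g c' * ZMod.stdAddChar (b * (c - c')) := by
        intro b
        rw [mul_assoc, ← AddChar.map_add_eq_mul]
        congr 2
        ring
      simp_rw [this]
      rw [← mul_sum, AddChar.sum_mulShift _ (ZMod.isPrimitive_stdAddChar A), if_neg, Nat.cast_zero,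
        mul_zero]
      rw [sub_eq_zero]
      exact fun h => hc' h.symm
    · simp
  have hT : ∀ c : ZMod A, (A : ℂ) * ∑ v ∈ range B, a v * g (c + (v : ZMod A)) =
      ∑ b : ZMod A, (gh b * ∑ v ∈ range B, a v * (ZMod.stdAddChar b) ^ v) *
        ZMod.stdAddChar (b * c) := by
    intro c
    have h1 : ∀ v ∈ range B, (A : ℂ) * (a v * g (c + (v : ZMod A))) =
        ∑ b : ZMod A, gh b * (a v * (ZMod.stdAddChar b) ^ v) * ZMod.stdAddChar (b * c) := by
      intro v _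
      have h2 := hinv (c + (v : ZMod A))
      calc (A : ℂ) * (a v * g (c + (v : ZMod A))) = a v * (A * g (c + (v : ZMod A))) := by ring
        _ = a v * ∑ b : ZMod A, gh b * ZMod.stdAddChar (b * (c + (v : ZMod A))) := by rw [h2]
        _ = _ := by
          rw [mul_sum]
          refine sum_congr rfl fun b _ => ?_
          rw [mul_add, AddChar.map_add_eq_mul, ← AddChar.map_nsmul_eq_pow]
          have : v • b = b * (v : ZMod A) := by rw [nsmul_eq_mul, mul_comm]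
          rw [this]
          ring
    rw [mul_sum, sum_congr rfl h1, sum_comm]
    refine sum_congr rfl fun b _ => ?_
    rw [mul_sum, sum_mul]
  have hP1 := parseval (A := A) fun b => gh b * ∑ v ∈ range B, a v * (ZMod.stdAddChar b) ^ v
  have hP2 := parseval (A := A) gh
  simp_rw [hinv] at hP2
  simp_rw [← hT] at hP1
  simp only [norm_mul, mul_pow, ← mul_sum, Complex.norm_natCast] at hP1 hP2
  have h3 : ∑ b : ZMod A, ‖gh b‖ ^ 2 * ‖∑ v ∈ range B, a v * (ZMod.stdAddChar b) ^ v‖ ^ 2 ≤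
      M ^ 2 * ∑ b : ZMod A, ‖gh b‖ ^ 2 := by
    rw [mul_sum]
    refine sum_le_sum fun b _ => ?_
    have h4 := ha (ZMod.stdAddChar b) (norm_char b)
    have h5 : ‖∑ v ∈ range B, a v * (ZMod.stdAddChar b) ^ v‖ ^ 2 ≤ M ^ 2 :=
      pow_le_pow_left₀ (norm_nonneg _) h4 2
    rw [mul_comm]
    exact mul_le_mul_of_nonneg_right h5 (by positivity)
  have h6 : (A : ℝ) ^ 2 * ∑ c : ZMod A, ‖∑ v ∈ range B, a v * g (c + (v : ZMod A))‖ ^ 2 ≤
      (A : ℝ) ^ 2 * (M ^ 2 * ∑ c : ZMod A, ‖g c‖ ^ 2) := by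
    rw [hP1]
    calc (A : ℝ) * ∑ b : ZMod A, ‖gh b‖ ^ 2 * ‖∑ v ∈ range B, a v * (ZMod.stdAddChar b) ^ v‖ ^ 2
        ≤ A * (M ^ 2 * ∑ b : ZMod A, ‖gh b‖ ^ 2) := mul_le_mul_of_nonneg_left h3 hA'.le
      _ = M ^ 2 * (A * ∑ b : ZMod A, ‖gh b‖ ^ 2) := by ring
      _ = M ^ 2 * ((A : ℝ) ^ 2 * ∑ c : ZMod A, ‖g c‖ ^ 2) := by rw [hP2]
      _ = _ := by ring
  exact le_of_mul_le_mul_left h6 (by positivity)

end

/-- the inequality for functions on an initial segment -/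
theorem multiplier_range {A B : ℕ} (hA : A ≠ 0) (G : ℕ → ℂ) (a : ℕ → ℂ) {M : ℝ} (hM : 0 ≤ M)
    (ha : ∀ z : ℂ, ‖z‖ = 1 → ‖∑ v ∈ range B, a v * z ^ v‖ ≤ M) :
    ∑ c ∈ range A, ‖∑ v ∈ range B, a v * G ((c + v) % A)‖ ^ 2 ≤ M ^ 2 * ∑ c ∈ range A, ‖G c‖ ^ 2 := by
  have : NeZero A := ⟨hA⟩
  have h := multiplier (A := A) (fun x => G x.val) a hM ha
  have h1 : ∀ f : ℕ → ℝ, ∑ c : ZMod A, f c.val = ∑ c ∈ range A, f c := by
    intro f
    obtain ⟨A', rfl⟩ : ∃ A', A = A' + 1 := ⟨A - 1, by omega⟩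
    rw [Finset.sum_range]
    rfl
  rw [h1 fun c => ‖G c‖ ^ 2] at h
  rw [← h1 fun c => ‖∑ v ∈ range B, a v * G ((c + v) % A)‖ ^ 2]
  refine le_of_eq_of_le (sum_congr rfl fun c _ => ?_) h
  congr 2
  refine sum_congr rfl fun v _ => ?_
  congr 2
  rw [ZMod.val_add, ZMod.val_natCast, Nat.add_mod_mod]

/-- Cauchy–Schwarz form for unimodular functions -/
theorem multiplier_one {A B : ℕ} (hA : A ≠ 0) (G : ℕ → ℂ) (hG : ∀ n, ‖G n‖ = 1) (a : ℕ → ℂ) {M : ℝ}
    (hM : 0 ≤ M) (ha : ∀ z : ℂ, ‖z‖ = 1 → ‖∑ v ∈ range B, a v * z ^ v‖ ≤ M) :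
    ∑ c ∈ range A, ‖∑ v ∈ range B, a v * G ((c + v) % A)‖ ≤ M * A := by
  have h := multiplier_range hA G a hM ha
  simp only [hG, one_pow, sum_const, card_range, nsmul_eq_mul, mul_one] at h
  have h1 := sq_sum_le_card_mul_sum_sq (s := range A)
    (f := fun c => ‖∑ v ∈ range B, a v * G ((c + v) % A)‖)
  rw [card_range] at h1
  have h2 : (∑ c ∈ range A, ‖∑ v ∈ range B, a v * G ((c + v) % A)‖) ^ 2 ≤ (M * A) ^ 2 := by
    refine h1.trans ?_
    calc (A : ℝ) * ∑ c ∈ range A, ‖∑ v ∈ range B, a v * G ((c + v) % A)‖ ^ 2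
        ≤ A * (M ^ 2 * A) := mul_le_mul_of_nonneg_left h (Nat.cast_nonneg A)
      _ = _ := by ring
  exact le_of_sq_le_sq h2 (by positivity)

end H31LI
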