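import Pool.Agent.H31LI.Decay
import Pool.Agent.H31LI.Parseval

/-!
# Products of digital functions in two coprime bases have mean value zero
-/

namespace H31LI

open Finset Filter Topology

/-- mean value -/
def MeanTo (f : ℕ → ℂ) (c : ℂ) : Prop :=
  Tendsto (fun N : ℕ => (∑ n ∈ range N, f n) / (N : ℂ)) atTop (𝓝 c)

theorem sum_mod_coprime {A B : ℕ} (hA : 0 < A) (h : Nat.Coprime B A) (f : ℕ → ℝ) :
    ∑ j ∈ range A, f ((B * j) % A) = ∑ c ∈ range A, f c := by
  have hmaps : ∀ j ∈ range A, (B * j) % A ∈ range A := fun j _ => mem_range.2 (Nat.mod_lt _ hA)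
  have hinj : Set.InjOn (fun j => (B * j) % A) (range A : Set ℕ) := by
    intro j hj j' hj' hjj
    have h1 : B * j ≡ B * j' [MOD A] := hjj
    have h2 : j ≡ j' [MOD A] := Nat.ModEq.cancel_left_of_coprime h.symm h1
    have hj1 := mem_range.1 (mem_coe.1 hj)
    have hj2 := mem_range.1 (mem_coe.1 hj')
    have h3 : j % A = j' % A := h2
    rwa [Nat.mod_eq_of_lt hj1, Nat.mod_eq_of_lt hj2] at h3
  have hsurj : Set.SurjOn (fun j => (B * j) % A) (range A : Set ℕ) (range A : Set ℕ) :=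
    surjOn_of_injOn_of_card_le _ (fun j hj => hmaps j hj) hinj le_rfl
  exact sum_nbij (fun j => (B * j) % A) hmaps hinj hsurj fun j _ => rfl

theorem block_bound {p q : ℕ} (hp : 0 < p) {F G : ℕ → ℂ} (hF : Dig q F) (hG : Dig p G) {z : ℂ}
    (hz : ‖z‖ = 1) {t s : ℕ} (hco : Nat.Coprime (q ^ t) (p ^ s)) {M : ℝ} (hM : 0 ≤ M)
    (hdec : ∀ z : ℂ, ‖z‖ = 1 → ‖∑ v ∈ range (q ^ t), F v * z ^ v‖ ≤ M) (k : ℕ) :
    ∑ j ∈ range (p ^ s), ‖∑ v ∈ range (q ^ t), F (q ^ t * (p ^ s * k + j) + v) *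
      G (q ^ t * (p ^ s * k + j) + v) * z ^ (q ^ t * (p ^ s * k + j) + v)‖ ≤
      M * p ^ s + ((q : ℝ) ^ t) ^ 2 := by
  set B := q ^ t with hB
  set A := p ^ s with hA
  have hA0 : 0 < A := by positivity
  set f : ℕ → ℝ := fun c => ‖∑ v ∈ range B, (F v * z ^ v) * G ((c + v) % A)‖ +
    if A < c + B then (B : ℝ) else 0 with hf
  have hterm : ∀ j, ‖∑ v ∈ range B, F (B * (A * k + j) + v) *
      G (B * (A * k + j) + v) * z ^ (B * (A * k + j) + v)‖ ≤ f ((B * j) % A) := by
    intro j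
    rw [hf]
    by_cases hc : A < (B * j) % A + B
    · have h1 : ‖∑ v ∈ range B, F (B * (A * k + j) + v) *
          G (B * (A * k + j) + v) * z ^ (B * (A * k + j) + v)‖ ≤ B := by
        refine (norm_sum_le _ _).trans ?_
        have : ∀ v ∈ range B, ‖F (B * (A * k + j) + v) * G (B * (A * k + j) + v) *
            z ^ (B * (A * k + j) + v)‖ = 1 := by
          intro v _
          rw [norm_mul, norm_mul, hF.norm, hG.norm, norm_pow, hz]
          simp
        rw [sum_congr rfl this]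
        simp
      simp only [hc, if_true]
      have h2 := norm_nonneg (∑ v ∈ range B, (F v * z ^ v) * G (((B * j) % A + v) % A))
      linarith
    · simp only [hc, if_false, add_zero]
      push Not at hc
      have hdiv := Nat.div_add_mod (B * j) A
      have h1 : ∀ v ∈ range B, F (B * (A * k + j) + v) *
          G (B * (A * k + j) + v) * z ^ (B * (A * k + j) + v) =
          (F (B * (A * k + j)) * G (A * (B * k + (B * j) / A)) * z ^ (B * (A * k + j))) *
            ((F v * z ^ v) * G (((B * j) % A + v) % A)) := by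
        intro v hv
        rw [mem_range] at hv
        have hcv : (B * j) % A + v < A := by omega
        rw [Nat.mod_eq_of_lt hcv, hF.mul t _ v hv]
        have h2 : B * (A * k + j) + v = A * (B * k + (B * j) / A) + ((B * j) % A + v) := by
          have : B * (A * k + j) = A * (B * k) + B * j := by ring
          rw [this, mul_add]
          omega
        have h3 : G (B * (A * k + j) + v) = G (A * (B * k + (B * j) / A)) * G ((B * j) % A + v) := by
          rw [h2, hG.mul s _ _ hcv]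
        rw [h3, pow_add]
        ring
      rw [sum_congr rfl h1, ← mul_sum, norm_mul, norm_mul, norm_mul, hF.norm, hG.norm, norm_pow, hz]
      simp
  refine (sum_le_sum fun j _ => hterm j).trans ?_
  rw [sum_mod_coprime hA0 hco f, hf, sum_add_distrib]
  refine add_le_add ?_ ?_
  · have := multiplier_one (A := A) (B := B) hA0.ne' G hG.norm (fun v => F v * z ^ v) hM (by
      intro z' hz'
      have h1 := hdec (z * z') (by rw [norm_mul, hz, hz', one_mul])
      refine le_of_eq_of_le ?_ h1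
      congr 1
      refine sum_congr rfl fun v _ => ?_
      rw [mul_pow]
      ring)
    refine this.trans (le_of_eq ?_)
    rw [hA]
    push_cast
    rfl
  · rw [← sum_filter, sum_const, nsmul_eq_mul, sq]
    have hcard : (((range A).filter fun c => A < c + B).card : ℝ) ≤ B := by
      have h1 : (range A).filter (fun c => A < c + B) ⊆ Ico (A + 1 - B) A := by
        intro c hc
        rw [mem_filter, mem_range] at hc
        rw [mem_Ico]
        omega
      have h2 := card_le_card h1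
      rw [Nat.card_Ico] at h2
      have h3 : A - (A + 1 - B) ≤ B := by omega
      exact_mod_cast h2.trans h3
    have hBr : ((q : ℝ) ^ t) = (B : ℝ) := by rw [hB]; push_cast; rfl
    rw [hBr]
    exact mul_le_mul_of_nonneg_right hcard (Nat.cast_nonneg B)

/-- **Two bases.** -/
theorem two_base {p q : ℕ} (hp : 2 ≤ p) (hq : 2 ≤ q) (hco : Nat.Coprime q p) {F G : ℕ → ℂ}
    (hF : Dig q F) (hG : Dig p G)
    (hdec : ∀ ε : ℝ, 0 < ε → ∃ t : ℕ, ∀ z : ℂ, ‖z‖ = 1 →
      ‖∑ v ∈ range (q ^ t), F v * z ^ v‖ ≤ ε * q ^ t) {z : ℂ} (hz : ‖z‖ = 1) :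
    MeanTo (fun n => F n * G n * z ^ n) 0 := by
  rw [MeanTo, Metric.tendsto_atTop]
  intro ε hε
  obtain ⟨t, ht⟩ := hdec (ε / 4) (by positivity)
  have hq0 : (0 : ℝ) < (q : ℝ) ^ t := by positivity
  obtain ⟨s, hs⟩ := pow_unbounded_of_one_lt ((q : ℝ) ^ t / (ε / 4))
    (show (1 : ℝ) < p by exact_mod_cast hp)
  have hp0 : (0 : ℝ) < (p : ℝ) ^ s := by positivity
  have hs' : (q : ℝ) ^ t ≤ ε / 4 * (p : ℝ) ^ s := by
    rw [div_lt_iff₀ (by positivity)] at hs
    linarith
  set L : ℕ := q ^ t * p ^ s with hL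
  have hLr : (L : ℝ) = (q : ℝ) ^ t * (p : ℝ) ^ s := by rw [hL]; push_cast; rfl
  have hL0 : 0 < L := by positivity
  obtain ⟨N₀, hN₀⟩ := exists_nat_gt ((L : ℝ) / (ε / 4))
  refine ⟨N₀ + 1, fun N hN => ?_⟩
  have hN0 : (0 : ℝ) < N := by
    have : 0 < N := by omega
    exact_mod_cast this
  have hLN : (L : ℝ) < ε / 4 * N := by
    rw [div_lt_iff₀ (by positivity)] at hN₀
    have : (N₀ : ℝ) ≤ N := by exact_mod_cast (by omega : N₀ ≤ N)
    nlinarith
  set f : ℕ → ℂ := fun n => F n * G n * z ^ n with hf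
  have hf1 : ∀ n, ‖f n‖ = 1 := by
    intro n
    rw [hf]
    simp only [norm_mul, hF.norm, hG.norm, norm_pow, hz]
    simp
  have hsum : ‖∑ n ∈ range N, f n‖ ≤ (N / L : ℕ) * (ε / 4 * q ^ t * p ^ s + ((q : ℝ) ^ t) ^ 2) + L := by
    have h1 : N = q ^ t * (p ^ s * (N / L)) + N % L := by
      rw [← mul_assoc, ← hL]
      exact (Nat.div_add_mod N L).symm
    conv_lhs => rw [h1]
    rw [sum_range_add, sum_range_mul', sum_range_mul']
    refine (norm_add_le _ _).trans (add_le_add ?_ ?_)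
    · refine (norm_sum_le _ _).trans ?_
      have h2 : ∀ k ∈ range (N / L), ‖∑ j ∈ range (p ^ s), ∑ v ∈ range (q ^ t),
          f (q ^ t * (p ^ s * k + j) + v)‖ ≤ ε / 4 * q ^ t * p ^ s + ((q : ℝ) ^ t) ^ 2 := by
        intro k _
        refine (norm_sum_le _ _).trans ?_
        exact block_bound (by omega) hF hG hz (Nat.Coprime.pow t s hco) (by positivity) ht k
      refine (sum_le_sum h2).trans ?_
      rw [sum_const, card_range, nsmul_eq_mul]
    · refine (norm_sum_le _ _).trans ?_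
      simp only [hf1, sum_const, card_range, nsmul_eq_mul, mul_one]
      exact_mod_cast (Nat.mod_lt N hL0).le
  have hKL : ((N / L : ℕ) : ℝ) * L ≤ N := by
    exact_mod_cast Nat.div_mul_le_self N L
  have hfin : ‖∑ n ∈ range N, f n‖ < ε * N := by
    have h3 : (ε / 4 * q ^ t * p ^ s + ((q : ℝ) ^ t) ^ 2) ≤ ε / 2 * L := by
      rw [hLr]
      nlinarith
    have h4 : ((N / L : ℕ) : ℝ) * (ε / 4 * q ^ t * p ^ s + ((q : ℝ) ^ t) ^ 2) ≤ ε / 2 * N := by
      calc ((N / L : ℕ) : ℝ) * (ε / 4 * q ^ t * p ^ s + ((q : ℝ) ^ t) ^ 2)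
          ≤ ((N / L : ℕ) : ℝ) * (ε / 2 * L) := mul_le_mul_of_nonneg_left h3 (Nat.cast_nonneg _)
        _ = ε / 2 * (((N / L : ℕ) : ℝ) * L) := by ring
        _ ≤ ε / 2 * N := mul_le_mul_of_nonneg_left hKL (by positivity)
    nlinarith
  rw [dist_zero_right, norm_div, Complex.norm_natCast, div_lt_iff₀ hN0]
  exact hfin

end H31LI
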