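import Pool.Agent.H31LI.TwoBase

/-!
# The functions `ω ^ v_q(n!)` are digital in base `q`
-/

namespace H31LI

open Finset Filter Topology

theorem div_add' {q t j v : ℕ} (hq : 0 < q) (hv : v < q ^ t) (i : ℕ) :
    (q ^ t * j + v) / q ^ i = (q ^ t * j) / q ^ i + v / q ^ i := by
  rcases le_total i t with h | h
  · obtain ⟨d, rfl⟩ := Nat.exists_eq_add_of_le h
    rw [pow_add, mul_assoc, Nat.mul_add_div (by positivity), Nat.mul_div_cancel_left _ (by positivity)]
  · obtain ⟨d, rfl⟩ := Nat.exists_eq_add_of_le h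
    rw [pow_add, ← Nat.div_div_eq_div_mul, ← Nat.div_div_eq_div_mul, ← Nat.div_div_eq_div_mul,
      Nat.mul_add_div (by positivity), Nat.div_eq_of_lt hv, Nat.mul_div_cancel_left _ (by positivity)]
    simp

theorem val_add {q : ℕ} [Fact q.Prime] {t j v : ℕ} (hv : v < q ^ t) :
    padicValNat q (q ^ t * j + v).factorial =
      padicValNat q (q ^ t * j).factorial + padicValNat q v.factorial := by
  have hq : 0 < q := (Fact.out : q.Prime).pos
  set b := (q ^ t * j + v) + 1 with hb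
  have h1 : Nat.log q (q ^ t * j + v) < b := by
    have := Nat.log_le_self q (q ^ t * j + v)
    omega
  have h2 : Nat.log q (q ^ t * j) < b := by
    have := Nat.log_le_self q (q ^ t * j)
    omega
  have h3 : Nat.log q v < b := by
    have := Nat.log_le_self q v
    omega
  rw [padicValNat_factorial h1, padicValNat_factorial h2, padicValNat_factorial h3,
    ← sum_add_distrib]
  exact sum_congr rfl fun i _ => div_add' hq hv i

theorem val_pow_mul {q : ℕ} [Fact q.Prime] (t : ℕ) : ∀ d : ℕ, d < q →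
    padicValNat q (q ^ t * d).factorial = d * padicValNat q (q ^ t).factorial := by
  intro d hd
  have hq : 0 < q := (Fact.out : q.Prime).pos
  set b := q ^ t * d + q ^ t + 1 with hb
  have h1 : Nat.log q (q ^ t * d) < b := by
    have := Nat.log_le_self q (q ^ t * d)
    omega
  have h2 : Nat.log q (q ^ t) < b := by
    have := Nat.log_le_self q (q ^ t)
    omega
  rw [padicValNat_factorial h1, padicValNat_factorial h2, mul_sum]
  refine sum_congr rfl fun i _ => ?_
  rcases le_or_gt i t with h | h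
  · obtain ⟨e, rfl⟩ := Nat.exists_eq_add_of_le h
    rw [pow_add, mul_assoc, Nat.mul_div_cancel_left _ (by positivity),
      Nat.mul_div_cancel_left _ (by positivity), mul_comm]
  · have h3 : q ^ (t + 1) ≤ q ^ i := Nat.pow_le_pow_right hq h
    have h4 : q ^ t * d < q ^ (t + 1) := by
      rw [pow_succ]
      exact Nat.mul_lt_mul_of_pos_left hd (by positivity)
    have h5 : q ^ t < q ^ (t + 1) :=
      Nat.pow_lt_pow_right (Fact.out : q.Prime).one_lt (Nat.lt_succ_self t)
    rw [Nat.div_eq_of_lt (h4.trans_le h3), Nat.div_eq_of_lt (h5.trans_le h3), mul_zero]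

theorem val_pow_succ {q : ℕ} [Fact q.Prime] (t : ℕ) :
    padicValNat q (q ^ (t + 1)).factorial = 1 + q * padicValNat q (q ^ t).factorial := by
  have hstep : ∀ t, padicValNat q (q ^ (t + 1)).factorial =
      padicValNat q (q ^ t).factorial + q ^ t := by
    intro t
    rw [pow_succ', padicValNat_factorial_mul]
  induction t with
  | zero =>
    rw [hstep 0]
    simp
  | succ t ih =>
    rw [hstep (t + 1)]
    calc padicValNat q (q ^ (t + 1)).factorial + q ^ (t + 1)
        = 1 + q * padicValNat q (q ^ t).factorial + q ^ (t + 1) := by rw [ih]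
      _ = 1 + q * (padicValNat q (q ^ t).factorial + q ^ t) := by ring
      _ = 1 + q * padicValNat q (q ^ (t + 1)).factorial := by rw [hstep t]

/-- `ω ^ v_q(n!)` -/
noncomputable def Fv (q : ℕ) (ω : ℂ) (n : ℕ) : ℂ := ω ^ padicValNat q n.factorial

theorem dig_Fv {q : ℕ} (hq : q.Prime) {ω : ℂ} (hω : ‖ω‖ = 1) : Dig q (Fv q ω) := by
  have : Fact q.Prime := ⟨hq⟩
  constructor
  · intro n
    rw [Fv, norm_pow, hω, one_pow]
  · intro t j v hv
    rw [Fv, Fv, Fv, val_add hv, pow_add]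

theorem decay_Fv {q : ℕ} (hq : q.Prime) {ω : ℂ} (hω : ‖ω‖ = 1) (hω1 : ω ≠ 1) (ε : ℝ) (hε : 0 < ε) :
    ∃ t : ℕ, ∀ z : ℂ, ‖z‖ = 1 → ‖∑ v ∈ range (q ^ t), Fv q ω v * z ^ v‖ ≤ ε * q ^ t := by
  have : Fact q.Prime := ⟨hq⟩
  refine decay hq.two_le (dig_Fv hq hω) hω hω1 ?_ ?_ ε hε
  · intro t d hd
    rw [Fv, Fv, val_pow_mul t d hd, ← pow_mul, mul_comm]
  · intro t
    rw [Fv, Fv, val_pow_succ, pow_add, pow_one, ← pow_mul, mul_comm q]

theorem dig_one (p : ℕ) : Dig p (fun _ => (1 : ℂ)) :=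
  ⟨fun _ => by simp, fun _ _ _ _ => by simp⟩

/-- all twists have mean value zero -/
def Null (f : ℕ → ℂ) : Prop := ∀ z : ℂ, ‖z‖ = 1 → MeanTo (fun n => f n * z ^ n) 0

theorem null_Fv {q : ℕ} (hq : q.Prime) {ω : ℂ} (hω : ‖ω‖ = 1) (hω1 : ω ≠ 1) : Null (Fv q ω) := by
  intro z hz
  obtain ⟨p, hp1, hp⟩ := Nat.exists_infinite_primes (q + 1)
  have hco : Nat.Coprime q p := (Nat.coprime_primes hq hp).2 (by omega)
  have h := two_base hp.two_le hq.two_le hco (dig_Fv hq hω) (dig_one p) (decay_Fv hq hω hω1) hz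
  simpa using h

theorem null_Fv_mul {p q : ℕ} (hp : p.Prime) (hq : q.Prime) (hpq : p ≠ q) {ω ω' : ℂ}
    (hω : ‖ω‖ = 1) (hω1 : ω ≠ 1) (hω' : ‖ω'‖ = 1) :
    Null (fun n => Fv q ω n * Fv p ω' n) := by
  intro z hz
  have hco : Nat.Coprime q p := (Nat.coprime_primes hq hp).2 (Ne.symm hpq)
  exact two_base hp.two_le hq.two_le hco (dig_Fv hq hω) (dig_Fv hp hω') (decay_Fv hq hω hω1) hz

end H31LI
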